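import Pool.Agent.N798.S.Stm

/-!
# Project S (helper798): from the multipliers to all coefficients
-/

set_option autoImplicit false

namespace Pool.Agent.N72.S

open MeasureTheory Pool.Agent.N798.S

section

variable {k : ℕ} {d : Fin k → ℕ}

/-- the map -/
def Fm (p : ((v : Fin k) → Fin (d v) → ℝ) × (Fin k → ℝ)) : (v : Fin k) → Fin (d v + 1) → ℝ :=
  fun v j => p.2 v * (if h : (j : ℕ) < d v then p.1 v ⟨j, h⟩ else 1)

theorem Fm_meas : Measurable (Fm (k := k) (d := d)) := by
  refine measurable_pi_lambda _ fun v => measurable_pi_lambda _ fun j => ?_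
  unfold Fm
  by_cases h : (j : ℕ) < d v
  · simp only [h, dif_pos]
    exact ((measurable_pi_apply v).comp measurable_snd).mul
      ((measurable_pi_apply _).comp ((measurable_pi_apply v).comp measurable_fst))
  · simp only [h, dif_neg, not_false_eq_true, mul_one]
    exact (measurable_pi_apply v).comp measurable_snd

variable (d) in
/-- separate the last coordinates -/
def sepL : ((v : Fin k) → Fin (d v + 1) → ℝ) ≃ₗ[ℝ] ((v : Fin k) → Fin (d v) → ℝ) × (Fin k → ℝ) where
  toFun z := (fun v j => z v j.castSucc, fun v => z v (Fin.last _))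
  map_add' _ _ := rfl
  map_smul' _ _ := rfl
  invFun p := fun v => Fin.snoc (α := fun _ => ℝ) (p.1 v) (p.2 v)
  left_inv z := by
    funext v j
    refine Fin.lastCases ?_ (fun j => ?_) j
    · simp
    · simp
  right_inv p := by
    refine Prod.ext ?_ ?_
    · funext v j
      simp
    · funext v
      simp

theorem Fm_sep (z : (v : Fin k) → Fin (d v + 1) → ℝ) (v : Fin k) (j : Fin (d v + 1)) :
    Fm (sepL d z) v j = z v (Fin.last _) * (if (j : ℕ) < d v then z v j else 1) := by
  show z v (Fin.last _) * (if h : (j : ℕ) < d v then z v (Fin.castSucc ⟨j, h⟩) else 1) = _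
  by_cases h : (j : ℕ) < d v
  · rw [dif_pos h, if_pos h]
    rfl
  · rw [dif_neg h, if_neg h]

theorem Fm_diff : Differentiable ℝ (fun z => Fm (sepL d z)) := by
  refine differentiable_pi.2 fun v => differentiable_pi.2 fun j => ?_
  have h1 : ∀ i : Fin (d v + 1), Differentiable ℝ
      (fun z : (v : Fin k) → Fin (d v + 1) → ℝ => z v i) := by
    intro i
    fun_prop
  by_cases h : (j : ℕ) < d v
  · have e : (fun z : (v : Fin k) → Fin (d v + 1) → ℝ => Fm (sepL d z) v j) =
        fun z => z v (Fin.last _) * z v j := by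
      funext z
      rw [Fm_sep, if_pos h]
    rw [e]
    exact (h1 _).mul (h1 _)
  · have e : (fun z : (v : Fin k) → Fin (d v + 1) → ℝ => Fm (sepL d z) v j) =
        fun z => z v (Fin.last _) := by
      funext z
      rw [Fm_sep, if_neg h, mul_one]
    rw [e]
    exact h1 _

end

theorem haar_pi (k : ℕ) (d : Fin k → ℕ) :
    (volume : Measure ((v : Fin k) → Fin (d v) → ℝ)).IsAddHaarMeasure := by
  rw [volume_pi]
  infer_instance

/-- **From the multipliers to all coefficients.** -/
theorem fc : S_FC := by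
  intro k d Pr hPr H
  obtain ⟨B, hB⟩ : ∃ B : Set ((v : Fin k) → Fin (d v + 1) → ℝ),
      B = {a | ∀ v, 0 < a v (Fin.last (d v))} ∩ {a | Pr a}ᶜ := ⟨_, rfl⟩
  have hBm : MeasurableSet B := by
    have h1 : MeasurableSet {a : (v : Fin k) → Fin (d v + 1) → ℝ |
        ∀ v, 0 < a v (Fin.last (d v))} := by
      rw [Set.ofPred_forall]
      refine MeasurableSet.iInter fun v => ?_
      exact measurableSet_lt measurable_const ((measurable_pi_apply _).comp (measurable_pi_apply v))
    rw [hB]
    exact h1.inter hPr.compl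
  have hTm : MeasurableSet (Fm ⁻¹' B) := Fm_meas hBm
  have hT : (volume : Measure (((v : Fin k) → Fin (d v) → ℝ) × (Fin k → ℝ))) (Fm ⁻¹' B) = 0 := by
    rw [Measure.volume_eq_prod, Measure.measure_prod_null hTm]
    refine Filter.Eventually.of_forall fun β => ?_
    have h1 := H β
    rw [ae_iff] at h1
    refine measure_mono_null ?_ h1
    intro α hα
    have hα' : Fm (β, α) ∈ B := hα
    rw [hB] at hα'
    obtain ⟨h2, h3⟩ := hα'
    rw [Set.mem_ofPred_eq, Classical.not_imp]
    refine ⟨fun v => ?_, h3⟩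
    have h4 : 0 < Fm (β, α) v (Fin.last (d v)) := h2 v
    unfold Fm at h4
    rw [dif_neg (by simp), mul_one] at h4
    exact h4
  obtain ⟨e, he⟩ : ∃ e : ((v : Fin k) → Fin (d v + 1) → ℝ) ≃L[ℝ]
      ((v : Fin k) → Fin (d v) → ℝ) × (Fin k → ℝ), ∀ z, e z = sepL d z :=
    ⟨(sepL d).toContinuousLinearEquiv, fun _ => rfl⟩
  have hN : (volume : Measure ((v : Fin k) → Fin (d v + 1) → ℝ)) (e ⁻¹' (Fm ⁻¹' B)) = 0 := by
    have i1 := haar_pi k fun v => d v + 1
    have i2 := haar_pi k d
    have i3 : (volume : Measure (((v : Fin k) → Fin (d v) → ℝ) × (Fin k → ℝ))).IsAddHaarMeasure := by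
      rw [Measure.volume_eq_prod]
      infer_instance
    have : (Measure.map e (volume : Measure ((v : Fin k) → Fin (d v + 1) → ℝ))).IsAddHaarMeasure :=
      e.isAddHaarMeasure_map _
    have h1 : (Measure.map e (volume : Measure ((v : Fin k) → Fin (d v + 1) → ℝ))) ≪
        (volume : Measure (((v : Fin k) → Fin (d v) → ℝ) × (Fin k → ℝ))) :=
      Measure.absolutelyContinuous_isAddHaarMeasure _ _
    have h2 := h1 hT
    rwa [Measure.map_apply e.continuous.measurable hTm] at h2
  have i1 := haar_pi k fun v => d v + 1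
  have him := addHaar_image_eq_zero_of_differentiableOn_of_addHaar_eq_zero
    (volume : Measure ((v : Fin k) → Fin (d v + 1) → ℝ)) (Fm_diff (d := d)).differentiableOn hN
  rw [ae_iff]
  refine measure_mono_null ?_ him
  intro a ha
  rw [Set.mem_ofPred_eq, Classical.not_imp] at ha
  obtain ⟨h1, h2⟩ := ha
  obtain ⟨z, hz⟩ : ∃ z : (v : Fin k) → Fin (d v + 1) → ℝ,
      z = fun v (j : Fin (d v + 1)) => if (j : ℕ) < d v then a v j / a v (Fin.last _) else a v (Fin.last _) :=
    ⟨_, rfl⟩
  have hza : Fm (sepL d z) = a := by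
    funext v j
    rw [Fm_sep, hz]
    have h3 : ¬ ((Fin.last (d v) : Fin (d v + 1)) : ℕ) < d v := by simp
    simp only [if_neg h3]
    by_cases h : (j : ℕ) < d v
    · simp only [if_pos h]
      exact mul_div_cancel₀ _ (h1 v).ne'
    · simp only [if_neg h, mul_one]
      congr 1
      apply Fin.ext
      rw [Fin.val_last]
      have := j.isLt
      omega
  refine ⟨z, ?_, hza⟩
  show Fm (e z) ∈ B
  rw [he, hza, hB]
  exact ⟨h1, h2⟩

end Pool.Agent.N72.S
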